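import Pool.Agent.Helper47.FLG.Alg2

namespace Pool.Agent.Helper47.FLG

open Finset Pool.Agent.Helper47.RFn

namespace DELFaux

theorem wd_nonneg {n : ℕ} (u v : Fin n → ℝ) : 0 ≤ wd u v := by
  unfold wd nrm dot
  have := Finset.sum_mul_sq_le_sq_mul_sq Finset.univ u v
  linarith

theorem K2_smul {n : ℕ} (c : ℝ) (R : T4 n) (u v : Fin n → ℝ) : K2 (c • R) u v = c * K2 R u v := by
  unfold K2
  simp only [Finset.mul_sum]
  refine Finset.sum_congr rfl fun a _ => Finset.sum_congr rfl fun b _ =>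
    Finset.sum_congr rfl fun c' _ => Finset.sum_congr rfl fun d _ => ?_
  simp only [Pi.smul_apply, smul_eq_mul]
  ring

theorem K2_symm {n : ℕ} {R : T4 n} (hR : IsCurv R) (u v : Fin n → ℝ) : K2 R u v = K2 R v u := by
  unfold K2
  rw [Finset.sum_comm]
  refine Finset.sum_congr rfl fun a _ => Finset.sum_congr rfl fun b _ => ?_
  rw [Finset.sum_comm]
  refine Finset.sum_congr rfl fun c _ => Finset.sum_congr rfl fun d _ => ?_
  rw [hR.a12 b a d c, hR.a34 a b d c]
  ring

theorem Q_smul {n : ℕ} (c : ℝ) (R : T4 n) : Q (c • R) = (c ^ 2) • Q R := by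
  have hB : ∀ a b c' d, BB (c • R) (c • R) a b c' d = c ^ 2 * BB R R a b c' d := by
    intro a b c' d
    unfold BB
    simp only [Finset.mul_sum]
    refine Finset.sum_congr rfl fun e _ => Finset.sum_congr rfl fun f _ => ?_
    simp only [Pi.smul_apply, smul_eq_mul]
    ring
  funext a b c' d
  simp only [Q, hB, Pi.smul_apply, smul_eq_mul]
  ring

/-- cross term -/
def crs {n : ℕ} (R : T4 n) (u v z : Fin n → ℝ) : ℝ :=
  ∑ a, ∑ b, ∑ c, ∑ d, R a b c d * (u a * z b * v c * z d + v a * z b * u c * z d)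

theorem K2_comb {n : ℕ} (R : T4 n) (u v z : Fin n → ℝ) (s t : ℝ) :
    K2 R (fun i => s * u i + t * v i) z = s ^ 2 * K2 R u z + s * t * crs R u v z + t ^ 2 * K2 R v z := by
  unfold K2 crs
  simp only [Finset.mul_sum, ← Finset.sum_add_distrib]
  refine Finset.sum_congr rfl fun a _ => Finset.sum_congr rfl fun b _ =>
    Finset.sum_congr rfl fun c' _ => Finset.sum_congr rfl fun d _ => ?_
  ring

theorem nrm_comb {n : ℕ} (u v : Fin n → ℝ) (s t : ℝ) :
    nrm (fun i => s * u i + t * v i) = s ^ 2 * nrm u + 2 * s * t * dot u v + t ^ 2 * nrm v := by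
  unfold nrm dot
  simp only [Finset.mul_sum, ← Finset.sum_add_distrib]
  refine Finset.sum_congr rfl fun a _ => ?_
  ring

theorem dot_comb {n : ℕ} (u v z : Fin n → ℝ) (s t : ℝ) :
    dot (fun i => s * u i + t * v i) z = s * dot u z + t * dot v z := by
  unfold dot
  simp only [Finset.mul_sum, ← Finset.sum_add_distrib]
  refine Finset.sum_congr rfl fun a _ => ?_
  ring

theorem dot_comm' {n : ℕ} (u v : Fin n → ℝ) : dot u v = dot v u := by
  unfold dot
  exact Finset.sum_congr rfl fun a _ => mul_comm _ _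

theorem lin_zero {a : ℝ} (h : ∀ t : ℝ, t * a ≤ 3 * t ^ 2) : a = 0 := by
  have h1 := h (a / 6)
  nlinarith [sq_nonneg a]

end DELFaux

open DELFaux in
theorem g_DELF (hFG1 : G_FG1) (hFG2 : G_FG2) (hEQF : G_EQF) (hCL : RFn.Goal_CL) : G_DELF := by
  intro n hn R hF z x y h0
  obtain ⟨-, hsm, -, -, -, -, hK, hdeg, hnd, -⟩ := hFG1 n
  have hQc : IsCurv (Q R) := (hCL n).1 R hF.1
  by_cases hw : wd x z * wd y z = 0
  · rw [hdeg (Q R) hQc z x y hw]
  obtain ⟨z', x', y', nz, nx, ny, hxz, hyz, hfl⟩ := hnd z x y hw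
  have hwpos : 0 < wd x z * wd y z :=
    lt_of_le_of_ne (mul_nonneg (wd_nonneg _ _) (wd_nonneg _ _)) (Ne.symm hw)
  rw [hfl (Q R) hQc]
  rw [hfl R hF.1] at h0
  have h4 : 4 * K2 R y' z' - K2 R x' z' = 0 := by
    rcases mul_eq_zero.1 h0 with h | h
    · exact absurd h hw
    · exact h
  refine mul_nonneg hwpos.le ?_
  have hm0 : 0 ≤ K2 R y' z' := hK R hF y' z'
  set m : ℝ := K2 R y' z' with hm
  have wdp : ∀ q : Fin n → ℝ, dot q z' = 0 → wd q z' = nrm q := by
    intro q hq
    unfold wd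
    rw [nz, hq]; ring
  by_cases hmz : m = 0
  · have hR0 : R = 0 := by
      have hlist := hFG2 n hn R hF
      obtain ⟨-, -, -, -, -, -, -, -, -, -, hz, -⟩ := hlist
      refine hz ⟨y', z', ?_, hmz⟩
      rw [wdp y' hyz, ny]; norm_num
    have hQ0 : Q R = 0 := by
      rw [hR0]
      funext a b c d
      simp [Q, BB]
    rw [hQ0]
    simp [K2]
  have hmpos : 0 < m := lt_of_le_of_ne hm0 (Ne.symm hmz)
  have hF' : FG (m⁻¹ • R) := hsm m⁻¹ R (inv_nonneg.2 hm0) hF
  set R' : T4 n := m⁻¹ • R with hR'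
  have ky : K2 R' y' z' = 1 := by
    rw [hR', K2_smul, ← hm]; field_simp
  have kx : K2 R' x' z' = 4 := by
    rw [hR', K2_smul]
    have : K2 R x' z' = 4 * m := by linarith
    rw [this]; field_simp
  -- bounds from the flags
  have hlo : ∀ q, dot q z' = 0 → nrm q ≤ K2 R' q z' := by
    intro q hq
    have h := hF'.2 z' x' q
    unfold fl at h
    rw [wdp x' hxz, wdp q hq, nx, kx] at h
    linarith
  have hhi : ∀ q, dot q z' = 0 → K2 R' q z' ≤ 4 * nrm q := by
    intro q hq
    have h := hF'.2 z' q y'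
    unfold fl at h
    rw [wdp y' hyz, wdp q hq, ny, ky] at h
    linarith
  have hxy : dot x' y' = 0 := by
    have e1 : crs R' x' y' z' - 8 * dot x' y' = 0 := by
      refine lin_zero fun t => ?_
      have hd : dot (fun i => 1 * x' i + t * y' i) z' = 0 := by
        rw [dot_comb, hxz, hyz]; ring
      have h := hhi _ hd
      rw [K2_comb, nrm_comb, kx, ky, nx, ny] at h
      nlinarith
    have e2 : 2 * dot x' y' - crs R' x' y' z' = 0 := by
      refine lin_zero fun t => ?_
      have hd : dot (fun i => t * x' i + 1 * y' i) z' = 0 := by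
        rw [dot_comb, hxz, hyz]; ring
      have h := hlo _ hd
      rw [K2_comb, nrm_comb, kx, ky, nx, ny] at h
      nlinarith
    linarith
  have hAc : Ac R' z' x' y' :=
    { fg := hF'
      nz := nz
      nx := nx
      ny := ny
      zx := by rw [dot_comm']; exact hxz
      zy := by rw [dot_comm']; exact hyz
      xy := hxy
      k4 := by rw [K2_symm hF'.1]; exact kx
      k1 := by rw [K2_symm hF'.1]; exact ky }
  have hD := (hEQF n R' z' x' y' hAc).1
  unfold Dz at hD
  rw [hR', Q_smul, K2_smul, K2_smul] at hD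
  have hmi : 0 < (m⁻¹) ^ 2 := by positivity
  by_contra hneg
  push Not at hneg
  have : (m⁻¹) ^ 2 * (4 * K2 (Q R) y' z' - K2 (Q R) x' z') < 0 := mul_neg_of_pos_of_neg hmi hneg
  linarith

end Pool.Agent.Helper47.FLG
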