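import Pool.Agent.Helper47.FLG.Pde

namespace Pool.Agent.Helper47.FLG

open Finset Pool.Agent.Helper47.RFn

namespace HR1aux

theorem mpw {n : ℕ} {T : ℝ} (hMP1 : RFn.Goal_MP1) (F : FB n T) (hB : F.Base) (f : F.B)
    (hi : F.Ini f 0) (hH : ∀ z t, 0 ≤ F.ev z t (F.Hop f)) : ∀ z t, 0 ≤ F.ev z t f := by
  intro z t
  have ht1 : (0 : ℝ) < t := t.2.1
  have ht2 : (t : ℝ) < T := t.2.2
  refine hMP1 n T F hB f 0 (((t : ℝ) + T) / 2) 0 1 le_rfl (by linarith) le_rfl one_pos ?_ ?_ z t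
    ht1 (by linarith)
  · intro ε hε
    obtain ⟨t0, ht0, _, h⟩ := hi ε hε
    refine ⟨t0, ht0, fun z s _ hs => ?_⟩
    have := h z s (by linarith)
    linarith
  · intro z s _ _ _ _ _
    have := hH z s
    linarith

theorem ev_gg {n : ℕ} {T : ℝ} (F : FB n T) (z : F.Z) (t : TI T) (f g : F.B) :
    F.ev z t (F.gg f g) = ∑ a, F.ev z t (F.H a f) * F.ev z t (F.H a g) := by
  unfold FB.gg
  rw [map_sum]
  exact Finset.sum_congr rfl fun a _ => map_mul _ _ _

theorem qI_nonneg (hWQ : RFn.Goal_WQ) {n : ℕ} (z w : Fin n → ℂ) : 0 ≤ qf (Id4 n) z w :=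
  (hWQ n 0 0 0 (by ext i j; simp) (fun v => by simp [rq]) (fun v => by simp [rq]) z w).1

end HR1aux

open HR1aux in
theorem g_HR1 (hDOM : G_DOM) (hZET : G_ZET) (hMP1 : RFn.Goal_MP1) (hPRD : RFn.Goal_PRD)
    (hWQ : RFn.Goal_WQ) (hBIA : RFn.Goal_BIA) : G_HR1 := by
  intro n hn
  obtain ⟨C1, hC1, hdom⟩ := hDOM n hn
  obtain ⟨Cb, -, hbia⟩ := hBIA n (by omega)
  refine ⟨6 * C1, by positivity, ?_⟩
  intro T F hF hRF l0 hl0 hlam hFG ε K b hε hK hb hSf τ hτ ze u zz hz
  have hn4 : (4 : ℝ) ≤ n := by exact_mod_cast hn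
  have hbase : F.Base := hF.toBase
  have hlp : ∀ z t, 0 < F.ev z t F.lam := fun z t => lt_of_lt_of_le hl0 (hlam z t)
  obtain ⟨-, hzet⟩ := hZET n hn T F hF hRF hlp τ hτ
  obtain ⟨-, hze⟩ := hzet ze hz.zef
  obtain ⟨hprd, -⟩ := hPRD n T F
  -- Hop of the pieces
  have Hu : F.Hop u = 0 := by unfold FB.Hop; rw [hz.heu, sub_self]
  have Hz' : F.Hop zz = 0 := by unfold FB.Hop; rw [hz.hez, sub_self]
  have He : F.Hop (ze - u) = F.Hop ze := by
    rw [(hprd ze u).2.2.1, Hu, sub_zero]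
  have Hu2 : ∀ z t, F.ev z t (F.Hop (u ^ 2)) = -(2 * F.ev z t (F.gg u u)) := by
    intro z t
    rw [(hprd u u).2.2.2.2, Hu, map_sub, map_smul, map_smul, mul_zero, map_zero]
    simp
  have gg0 : ∀ z t f, 0 ≤ F.ev z t (F.gg f f) := fun z t f => by
    rw [ev_gg]; exact Finset.sum_nonneg fun a _ => mul_self_nonneg _
  have hB0 : ∀ z t, 0 ≤ F.ev z t (hB F) := by
    intro z t
    unfold hB
    rw [map_sum]
    refine Finset.sum_nonneg fun a _ => ?_
    rw [map_sum]
    refine Finset.sum_nonneg fun c _ => ?_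
    rw [map_pow]
    exact sq_nonneg _
  have hG0 : ∀ z t, 0 ≤ F.ev z t (F.gg F.lam F.lam) / F.ev z t F.lam := fun z t =>
    div_nonneg (gg0 z t _) (hlp z t).le
  -- signs
  have he0 : ∀ z t, 0 ≤ F.ev z t (ze - u) := by
    refine mpw hMP1 F hbase _ hz.iu2 fun z t => ?_
    rw [He]
    exact (hze z t).2.2.2.1
  have hu0 : ∀ z t, 0 ≤ F.ev z t u := by
    refine mpw hMP1 F hbase _ ?_ fun z t => by rw [Hu, map_zero]
    intro δ hδ
    obtain ⟨t0, ht0, ht0T, h⟩ := hz.iu1 δ hδ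
    refine ⟨t0, ht0, ht0T, fun z t ht => ?_⟩
    have h1 := h z t ht
    have h2 := (hze z t).1
    rw [map_sub] at h1
    linarith
  have hzu0 : ∀ z t, 0 ≤ F.ev z t (zz - u ^ 2) := by
    refine mpw hMP1 F hbase _ ?_ fun z t => ?_
    · intro δ hδ
      obtain ⟨t0, ht0, ht0T, h⟩ := hz.iz1 δ hδ
      refine ⟨t0, ht0, ht0T, fun z t ht => ?_⟩
      have h1 := h z t ht
      have h2 := (hze z t).1
      have h3 := he0 z t
      have h4 := hu0 z t
      rw [map_sub] at h3
      rw [map_sub, map_pow] at h1 ⊢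
      nlinarith
    · rw [(hprd zz (u ^ 2)).2.2.1, Hz', map_sub, map_zero, Hu2]
      have := gg0 z t u
      linarith
  intro z t
  refine ⟨he0 z t, hu0 z t, hzu0 z t, ?_⟩
  intro ι hι z' w'
  set q := qf (Id4 n) z' w' with hq
  have hq0 : 0 ≤ q := qI_nonneg hWQ z' w'
  set X := (ε * F.ev z t F.lam + K * b + K ^ 2 * b ^ 2 / ε * t) * q +
    K * qf (pull ι (F.rv z t)) z' w' with hX
  -- first application
  have d1 : F.ev z t ((1 / 2 : ℝ) • (ze - u)) * q ≤ C1 * X := by
    refine hdom T F hF hRF l0 hl0 hlam hFG ε K b hε hK hb hSf _ ?_ ?_ z t ι hι z' w'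
    · intro δ hδ
      obtain ⟨t0, ht0, ht0T, h⟩ := hz.iu1 δ hδ
      refine ⟨t0, ht0, ht0T, fun z t ht => ?_⟩
      have h1 := h z t ht
      rw [map_neg, map_smul, smul_eq_mul]
      rw [map_sub] at h1 ⊢
      linarith
    · intro z t
      rw [((hprd (ze - u) u).2.2.2.1 (1 / 2)).1, map_smul, smul_eq_mul, He]
      have h1 := (hze z t).2.2.2.2.1
      have h2 := hB0 z t
      have h3 : 2 / (n : ℝ) * F.ev z t (hB F) ≤ 2 * F.ev z t (hB F) := by
        refine mul_le_mul_of_nonneg_right ?_ h2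
        rw [div_le_iff₀ (by linarith)]
        linarith
      linarith
  -- second application
  have d2 : F.ev z t ((τ / 6 : ℝ) • (zz - u ^ 2 + (2 : ℝ) • (ze - u) ^ 2)) * q ≤ C1 * X := by
    refine hdom T F hF hRF l0 hl0 hlam hFG ε K b hε hK hb hSf _ ?_ ?_ z t ι hι z' w'
    · intro δ hδ
      obtain ⟨t0, ht0, ht0T, h⟩ := hz.iu1 δ hδ
      obtain ⟨t1, ht1, ht1T, h'⟩ := hz.iz2 (3 * δ / τ) (by positivity)
      refine ⟨min t0 t1, lt_min ht0 ht1, lt_of_le_of_lt (min_le_left _ _) ht0T, fun z t ht => ?_⟩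
      have h1 := h z t (lt_of_lt_of_le ht (min_le_left _ _))
      have h2 := h' z t (lt_of_lt_of_le ht (min_le_right _ _))
      have h3 := he0 z t
      have h4 := hu0 z t
      have h5 := (hze z t).1
      have h6 := (hze z t).2.2.1
      rw [map_neg, map_smul, smul_eq_mul, map_add, map_smul, smul_eq_mul, map_sub, map_pow,
        map_pow, map_sub]
      rw [map_sub] at h1 h3
      rw [map_sub, map_pow] at h2
      set A := F.ev z t ze
      set U := F.ev z t u
      set Zv := F.ev z t zz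
      have k1 : A ^ 2 - U ^ 2 ≤ δ / τ := by
        have e1 : A - U ≤ δ := by linarith
        have e2 : A + U ≤ 1 / τ := by
          have : 1 / τ = 2 * (1 / (2 * τ)) := by field_simp
          linarith
        calc A ^ 2 - U ^ 2 = (A - U) * (A + U) := by ring
          _ ≤ δ * (1 / τ) := mul_le_mul e1 e2 (by linarith) hδ.le
          _ = δ / τ := by ring
      have k2 : (A - U) ^ 2 ≤ δ / (2 * τ) := by
        have e1 : A - U ≤ δ := by linarith
        have e2 : A - U ≤ 1 / (2 * τ) := by linarith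
        calc (A - U) ^ 2 = (A - U) * (A - U) := by ring
          _ ≤ δ * (1 / (2 * τ)) := mul_le_mul e1 e2 h3 hδ.le
          _ = δ / (2 * τ) := by ring
      have k3 : Zv - A ^ 2 ≤ 3 * δ / τ := by linarith
      have k4 : τ / 6 * (Zv - U ^ 2 + 2 * (A - U) ^ 2) ≤
          τ / 6 * (3 * δ / τ + δ / τ + 2 * (δ / (2 * τ))) :=
        mul_le_mul_of_nonneg_left (by linarith) (by positivity)
      have k5 : τ / 6 * (3 * δ / τ + δ / τ + 2 * (δ / (2 * τ))) = 5 / 6 * δ := by
        field_simp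
        ring
      linarith
    · intro z t
      rw [((hprd (zz - u ^ 2 + (2 : ℝ) • (ze - u) ^ 2) u).2.2.2.1 (τ / 6)).1, map_smul,
        smul_eq_mul, (hprd (zz - u ^ 2) ((2 : ℝ) • (ze - u) ^ 2)).2.1, map_add,
        (hprd zz (u ^ 2)).2.2.1, map_sub, Hz', map_zero, Hu2,
        ((hprd ((ze - u) ^ 2) u).2.2.2.1 2).1, map_smul, smul_eq_mul,
        (hprd (ze - u) u).2.2.2.2, He, map_sub, map_smul, map_smul, smul_eq_mul, smul_eq_mul,
        map_mul]
      obtain ⟨h5, -, h6, h7, h8, h9⟩ := hze z t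
      have h3 := he0 z t
      have h4 := hu0 z t
      have hG := hG0 z t
      have hBn := hB0 z t
      have hgg : 2 * F.ev z t (F.gg u u) ≤ 4 * F.ev z t (F.gg (ze - u) (ze - u)) +
          4 * F.ev z t (F.gg ze ze) := by
        rw [ev_gg, ev_gg, ev_gg, Finset.mul_sum, Finset.mul_sum, Finset.mul_sum,
          ← Finset.sum_add_distrib]
        refine Finset.sum_le_sum fun a _ => ?_
        rw [map_sub, map_sub]
        nlinarith [sq_nonneg (2 * F.ev z t (F.H a ze) - F.ev z t (F.H a u))]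
      set G := F.ev z t (F.gg F.lam F.lam) / F.ev z t F.lam
      set E := F.ev z t (ze - u) with hE
      have hEA : E ≤ F.ev z t ze := by rw [hE, map_sub]; linarith
      set A := F.ev z t ze
      set HZ := F.ev z t (F.Hop ze)
      set hb' := F.ev z t (hB F)
      have k1 : A * G ≤ 1 / (2 * τ) * G := mul_le_mul_of_nonneg_right h6 hG
      have k2 : E * HZ ≤ 1 / (2 * τ) * (2 / n * hb' + 2 * G) :=
        mul_le_mul (by linarith) h8 h7 (by positivity)
      have k3 : 2 / (n : ℝ) * hb' ≤ 1 / 2 * hb' := by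
        refine mul_le_mul_of_nonneg_right ?_ hBn
        rw [div_le_iff₀ (by linarith)]
        linarith
      have k4 : 1 / (2 * τ) * (2 / n * hb' + 2 * G) ≤ 1 / (2 * τ) * (1 / 2 * hb' + 2 * G) :=
        mul_le_mul_of_nonneg_left (by linarith) (by positivity)
      have k5 : -(-(2 * F.ev z t (F.gg u u))) = 2 * F.ev z t (F.gg u u) := by ring
      have k6 : 0 - -(2 * F.ev z t (F.gg u u)) + 2 * (2 * (E * HZ) -
          2 * F.ev z t (F.gg (ze - u) (ze - u))) ≤ 6 / τ * (G + hb') := by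
        have e1 : 4 * (1 / (2 * τ) * G) + 4 * (1 / (2 * τ) * (1 / 2 * hb' + 2 * G)) =
            (6 * G + hb') / τ := by
          field_simp
          ring
        have e2 : (6 * G + hb') / τ ≤ 6 / τ * (G + hb') := by
          rw [div_mul_eq_mul_div]
          refine div_le_div_of_nonneg_right ?_ hτ.le
          linarith
        linarith
      have k7 := mul_le_mul_of_nonneg_left k6 (by positivity : (0 : ℝ) ≤ τ / 6)
      have k8 : τ / 6 * (6 / τ * (G + hb')) = G + hb' := by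
        field_simp
      linarith
  rw [map_smul, smul_eq_mul] at d1
  have hep := he0 z t
  have hX0 : 0 ≤ C1 * X := le_trans (mul_nonneg (by linarith) hq0) d1
  have hX1 : 6 * C1 * X = 6 * (C1 * X) := by ring
  refine ⟨?_, ?_⟩
  · rw [hX1]
    have : F.ev z t (ze - u) * q = 2 * (1 / 2 * F.ev z t (ze - u) * q) := by ring
    linarith
  · rw [hX1]
    rw [map_smul, smul_eq_mul, map_add, map_smul, smul_eq_mul, map_pow] at d2
    have h1 : 0 ≤ τ * (2 * F.ev z t (ze - u) ^ 2) * q := by positivity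
    have h2 : τ / 6 * (F.ev z t (zz - u ^ 2) + 2 * F.ev z t (ze - u) ^ 2) * q =
      1 / 6 * (τ * F.ev z t (zz - u ^ 2) * q) + 1 / 6 * (τ * (2 * F.ev z t (ze - u) ^ 2) * q) := by
      ring
    linarith

end Pool.Agent.Helper47.FLG
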