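import Pool.Agent.Helper47.FLG.Fun

namespace Pool.Agent.Helper47.FLG

open Finset Pool.Agent.Helper47.RFn Pool.Agent.Helper73.RFn

theorem p_GBV (hGBL : GblStmt) (hPF5 : G_PF5) (hFHM : FhmStmt) (hC4 : RFn.Goal_C4)
    (hC6 : RFn.Goal_C6) : GbvStmt := by
  intro m hm
  obtain ⟨c, hc, hgbl⟩ := hGBL m hm
  obtain ⟨C, hC, hpf⟩ := hPF5 m (by omega)
  refine ⟨c / C, by positivity, ?_⟩
  intro T l0 C' σ A θ hT hl0 hC' hσ hσ1 hF hG hB t ht htT Λ hΛ hR
  have h1 := hgbl T l0 C' σ A θ hT hl0 hC' hσ hσ1 hF hG hB t ht htT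
  have hfrm : Frm (A t) (θ t) := ((hFHM (2 * m)).2 (Set.Ico 0 T) A θ hF).1 t ⟨ht.le, htT⟩
  obtain ⟨hmet, -, -, -, -, -, -, -, -, -, -, hnu, -⟩ := (hFHM (2 * m)).1 (A t) (θ t) hfrm
  obtain ⟨hdet, -, hsq, -⟩ := hC6 (2 * m) (gOf (θ t)) hmet
  have hint := (hC4 (2 * m)).2.1 _ hsq
  have hpt : ∀ x : EE (2 * m), x ≠ 0 → |pff (A t) (θ t) x| ≤ C * Λ ^ m := by
    intro x hx
    exact (hpf (RT (A t) (θ t) x) (fun a => nfc (A t) a x) (hnu x hx)).1 Λ (fun a b c d => hR x hx a b c d)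
  have hint2 : MeasureTheory.IntegrableOn
      (fun x => pff (A t) (θ t) x * Real.sqrt (gOf (θ t) x).det) (Metric.ball (0 : EE (2 * m)) 1) := by
    by_contra hni
    unfold integ at h1
    rw [MeasureTheory.integral_undef hni, mul_zero] at h1
    linarith
  have hne : ∀ᵐ x : EE (2 * m) ∂(MeasureTheory.volume.restrict (Metric.ball (0 : EE (2 * m)) 1)), x ≠ 0 := by
    apply MeasureTheory.ae_restrict_of_ae
    have : ({(0 : EE (2 * m))}ᶜ : Set (EE (2 * m))) ∈ MeasureTheory.ae MeasureTheory.volume :=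
      MeasureTheory.compl_mem_ae_iff.mpr (MeasureTheory.measure_singleton 0)
    exact this
  have hmono : (∫ x in Metric.ball (0 : EE (2 * m)) 1, pff (A t) (θ t) x * Real.sqrt (gOf (θ t) x).det)
      ≤ ∫ x in Metric.ball (0 : EE (2 * m)) 1, (C * Λ ^ m) * Real.sqrt (gOf (θ t) x).det := by
    apply MeasureTheory.integral_mono_ae hint2 (hint.const_mul _)
    filter_upwards [hne] with x hx
    exact mul_le_mul_of_nonneg_right ((le_abs_self _).trans (hpt x hx)) (Real.sqrt_nonneg _)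
  rw [MeasureTheory.integral_const_mul] at hmono
  have h2 : c ≤ (C * Λ ^ m) * gvol (gOf (θ t)) := by
    refine h1.trans ?_
    unfold gvol integ
    have h3 : (0 : ℝ) ≤ ((2 * m : ℕ) : ℝ) + 1 := by positivity
    calc (((2 * m : ℕ) : ℝ) + 1) * (∫ x in Metric.ball (0 : EE (2 * m)) 1,
          pff (A t) (θ t) x * Real.sqrt (gOf (θ t) x).det)
        ≤ (((2 * m : ℕ) : ℝ) + 1) * (C * Λ ^ m * ∫ x in Metric.ball (0 : EE (2 * m)) 1,
          Real.sqrt (gOf (θ t) x).det) := mul_le_mul_of_nonneg_left hmono h3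
      _ = _ := by ring
  rw [div_le_iff₀ hC]
  calc c ≤ (C * Λ ^ m) * gvol (gOf (θ t)) := h2
    _ = Λ ^ m * gvol (gOf (θ t)) * C := by ring

end Pool.Agent.Helper47.FLG
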